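import Pool.Agent.U695.XM.Rg

/-!
# The first moment
-/

set_option autoImplicit false
set_option linter.unusedVariables false

open Finset Filter

namespace Pool.Agent.U695.XM

open H385 (ZI RQ im1 nrm BX)
open Pool.Agent.H304R2.EC.A1 (prim prim_mul)
open Pool.Agent.Y699

variable {Φ : ℕ → ZI → ℝ}

lemma hi_eq (Z : ℕ) (x : ZI) : hi Z x = 1 - lo Z x := by
  unfold hi lo
  by_cases h : nrm x ≤ Z
  · rw [if_neg (by omega), if_pos h]; norm_num
  · rw [if_pos (by omega), if_neg h]; norm_num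

lemma compl_abs {x : ℝ} (h0 : 0 ≤ x) (h1 : x ≤ 1) : |1 - x| ≤ 1 := by
  rw [abs_of_nonneg (by linarith)]
  linarith

/-- the estimate with explicit parameters -/
theorem total (hΦ : Cl Φ) : ∃ C : ℝ, 1 ≤ C ∧ ∀ (X Z : ℕ) (lam : ℝ), 1 ≤ Z → 1 ≤ X → 0 ≤ lam →
    HL4 X Z lam →
    |∑ m ∈ SB X, Φ X m * K0 m - 4 * ∑ n ∈ SB X, Φ X n| ≤
      2 * (C * (X * lg X ^ 3) * (Z : ℝ) ^ (-(1 / 96) : ℝ)) + 8 * E4 X Z lam := by
  obtain ⟨C, hC1, hC⟩ := regA hΦ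
  refine ⟨C, hC1, fun X Z lam hZ hX hlam h => ?_⟩
  have e0 : ∑ m ∈ SB X, Φ X m * K0 m = S4 (SB X) (F4 Φ X (fun _ _ _ _ => 1)) := by
    rw [K0_sum hΦ]
    unfold S4 F4
    refine sum_congr rfl fun a _ => sum_congr rfl fun b _ => sum_congr rfl fun c _ =>
      sum_congr rfl fun e _ => ?_
    rw [one_mul]
  -- the pieces
  have t1 := hC X Z hZ (fun _ _ => 1) (fun _ _ => by norm_num)
  have t2 := hC X Z hZ (fun a e => 1 - hi Z a * hi Z e)
    (fun a e => compl_abs (mul_nonneg (hi_nonneg _ _) (hi_nonneg _ _))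
      (mul_le_one₀ (hi_le _ _) (hi_nonneg _ _) (hi_le _ _)))
  have t2' : S4 (SB X) (F4 Φ X (fun a b c e => hi Z a * hi Z e * (1 - hi Z b * hi Z c))) =
      S4 (SB X) (F4 Φ X (fun a b c e => hi Z b * hi Z c * (1 - hi Z a * hi Z e))) := by
    rw [F4_sw]
  have m1 := regC hΦ hlam h hZ hX
  have m2 : S4 (SB X) (F4 Φ X (fun a b c e => lo Z a * lo Z c)) =
      S4 (SB X) (F4 Φ X (fun a b c e => lo Z a * lo Z b)) := by
    rw [F4_23]
  have m3 : S4 (SB X) (F4 Φ X (fun a b c e => lo Z e * lo Z b)) =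
      S4 (SB X) (F4 Φ X (fun a b c e => lo Z a * lo Z b)) := by
    rw [F4_14]
  have m4 : S4 (SB X) (F4 Φ X (fun a b c e => lo Z e * lo Z c)) =
      S4 (SB X) (F4 Φ X (fun a b c e => lo Z a * lo Z b)) := by
    rw [F4_23, F4_14]
  have b1 := regB hΦ hlam h (κ := fun a b c e => - hi Z e)
    (fun a b c e => by rw [abs_neg]; exact hi_abs _ _)
  have b0 := regB hΦ hlam h (κ := fun a b c e => -1) (fun a b c e => by norm_num)
  have b2 : S4 (SB X) (F4 Φ X (fun a b c e => lo Z e * lo Z b * lo Z c * (-1))) =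
      S4 (SB X) (F4 Φ X (fun a b c e => lo Z a * lo Z b * lo Z c * (-1))) := by
    rw [F4_14]
  have b3 : S4 (SB X) (F4 Φ X (fun a b c e => lo Z b * lo Z a * lo Z e * (-1))) =
      S4 (SB X) (F4 Φ X (fun a b c e => lo Z a * lo Z b * lo Z c * (-1))) := by
    rw [F4_sw]
  have b4 : S4 (SB X) (F4 Φ X (fun a b c e => lo Z c * lo Z a * lo Z e * (-1))) =
      S4 (SB X) (F4 Φ X (fun a b c e => lo Z a * lo Z b * lo Z c * (-1))) := by
    rw [F4_23, F4_sw]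
  have key : S4 (SB X) (F4 Φ X (fun _ _ _ _ => 1)) =
      S4 (SB X) (F4 Φ X (fun a b c e => hi Z b * hi Z c * 1)) +
      S4 (SB X) (F4 Φ X (fun a b c e => hi Z a * hi Z e * (1 - hi Z b * hi Z c))) +
      S4 (SB X) (F4 Φ X (fun a b c e => lo Z a * lo Z b)) +
      S4 (SB X) (F4 Φ X (fun a b c e => lo Z a * lo Z c)) +
      S4 (SB X) (F4 Φ X (fun a b c e => lo Z e * lo Z b)) +
      S4 (SB X) (F4 Φ X (fun a b c e => lo Z e * lo Z c)) +
      S4 (SB X) (F4 Φ X (fun a b c e => lo Z a * lo Z b * lo Z c * (- hi Z e))) +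
      S4 (SB X) (F4 Φ X (fun a b c e => lo Z e * lo Z b * lo Z c * (-1))) +
      S4 (SB X) (F4 Φ X (fun a b c e => lo Z b * lo Z a * lo Z e * (-1))) +
      S4 (SB X) (F4 Φ X (fun a b c e => lo Z c * lo Z a * lo Z e * (-1))) := by
    simp only [← S4_add]
    refine S4_congr fun a _ b _ c _ e _ => ?_
    unfold F4
    simp only [hi_eq]
    ring
  rw [e0, key, t2', m2, m3, m4, b2, b3, b4]
  rw [abs_le] at t1 t2 m1 b1 b0 ⊢
  constructor <;> linarith [t1.1, t1.2, t2.1, t2.2, m1.1, m1.2, b1.1, b1.2, b0.1, b0.2]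

/-- the logarithm of the number -/
lemma lg_cast (X : ℕ) : lg X = ((Nat.log 2 X + 1 : ℕ) : ℝ) := by
  unfold lg
  push_cast
  rfl

lemma lg_pow_le (L k : ℕ) (hL : 1 ≤ L) (hk : 1 ≤ k) : lg (L ^ k) ≤ k * lg L := by
  unfold lg
  have h1 : L < 2 ^ (Nat.log 2 L + 1) := Nat.lt_pow_succ_log_self (by norm_num) L
  have h2 : L ^ k < 2 ^ (k * (Nat.log 2 L + 1)) := by
    rw [mul_comm, pow_mul]
    exact Nat.pow_lt_pow_left h1 (by omega)
  have h3 : Nat.log 2 (L ^ k) < k * (Nat.log 2 L + 1) := by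
    apply Nat.log_lt_of_lt_pow (by positivity) h2
  have h4 : Nat.log 2 (L ^ k) + 1 ≤ k * (Nat.log 2 L + 1) := h3
  exact_mod_cast h4

lemma ev_pow (K : ℕ) : ∀ᶠ k : ℕ in atTop, (2 * k + 2) ^ K ≤ 2 ^ k := by
  have h1 := tendsto_pow_const_div_const_pow_of_one_lt K (show (1 : ℝ) < 2 by norm_num)
  have h2 := (h1.comp (tendsto_add_atTop_nat 1)).eventually
    (gt_mem_nhds (show (0 : ℝ) < 1 / 2 ^ (K + 1) by positivity))
  filter_upwards [h2] with k hk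
  have h3 : ((k + 1 : ℕ) : ℝ) ^ K / 2 ^ (k + 1) < 1 / 2 ^ (K + 1) := hk
  rw [div_lt_div_iff₀ (by positivity) (by positivity), one_mul, pow_succ, pow_succ] at h3
  have h4 : ((2 * (k + 1) : ℕ) : ℝ) ^ K ≤ 2 ^ k := by
    push_cast
    rw [mul_pow]
    push_cast at h3
    have h5 : (2 : ℝ) ^ K * ((k : ℝ) + 1) ^ K * 2 < 2 ^ k * 2 := by
      calc (2 : ℝ) ^ K * ((k : ℝ) + 1) ^ K * 2 = ((k : ℝ) + 1) ^ K * (2 ^ K * 2) := by
            rw [mul_comm ((2 : ℝ) ^ K), mul_assoc]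
        _ < _ := h3
    linarith
  have h5 : (2 * k + 2) ^ K = (2 * (k + 1)) ^ K := by rw [mul_add, mul_one]
  rw [h5]
  exact_mod_cast h4

/-- the choice of the parameters is possible -/
lemma ev_HL (K : ℕ) : ∀ᶠ X : ℕ in atTop, HL4 X ((Nat.log 2 X + 1) ^ K) 2 := by
  obtain ⟨k0, hk0⟩ := eventually_atTop.1 (ev_pow (K * 3))
  filter_upwards [eventually_ge_atTop (2 ^ (2 * k0 + 1))] with X hX r hr hn
  set l := Nat.log 2 X with hl
  have hX0 : X ≠ 0 := by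
    have : 0 < 2 ^ (2 * k0 + 1) := by positivity
    omega
  have h1 : 2 * k0 + 1 ≤ l := by
    rw [hl]
    exact Nat.le_log_of_pow_le (by norm_num) hX
  have h2 : 2 ^ l ≤ X := Nat.pow_log_le_self 2 hX0
  have h3 : (l + 1) ^ (K * 3) ≤ 2 ^ (l / 2) := by
    refine le_trans (Nat.pow_le_pow_left ?_ _) (hk0 (l / 2) (by omega))
    omega
  have h4 : nrm r ≤ 2 ^ (l / 2) := by
    refine hn.trans ?_
    rw [← pow_mul]
    exact h3
  have h5 : 0 < nrm r := nrm_pos' (Pool.Agent.H304R2.EC.A1.prim_ne_zero hr)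
  have h6 : 2 ^ (l - l / 2) ≤ X / nrm r := by
    rw [Nat.le_div_iff_mul_le h5]
    calc 2 ^ (l - l / 2) * nrm r ≤ 2 ^ (l - l / 2) * 2 ^ (l / 2) := Nat.mul_le_mul_left _ h4
      _ = 2 ^ l := by rw [← pow_add]; congr 1; omega
      _ ≤ X := h2
  have h7 : l - l / 2 ≤ Nat.log 2 (X / nrm r) := Nat.le_log_of_pow_le (by norm_num) h6
  unfold lg
  rw [← hl]
  have h8 : l + 1 ≤ 2 * (Nat.log 2 (X / nrm r) + 1) := by omega
  have h9 : ((l + 1 : ℕ) : ℝ) ≤ ((2 * (Nat.log 2 (X / nrm r) + 1) : ℕ) : ℝ) := Nat.cast_le.2 h8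
  push_cast at h9
  linarith

lemma tendsto_L : Tendsto (fun X : ℕ => Nat.log 2 X + 1) atTop atTop := by
  refine (tendsto_add_atTop_nat 1).comp ?_
  rw [tendsto_atTop]
  intro b
  filter_upwards [eventually_ge_atTop (2 ^ b)] with X hX
  exact Nat.le_log_of_pow_le (by norm_num) hX

lemma tendsto_err (A B : ℝ) : Tendsto (fun L : ℕ => A / (L : ℝ) +
    B * (Real.log L ^ 3 / Real.sqrt L)) atTop (nhds 0) := by
  have h1 : Tendsto (fun L : ℕ => A / (L : ℝ)) atTop (nhds 0) :=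
    tendsto_const_nhds.div_atTop tendsto_natCast_atTop_atTop
  have h2 : Tendsto (fun x : ℝ => Real.log x ^ 3 / x) atTop (nhds 0) :=
    (Real.isLittleO_pow_log_id_atTop (n := 3)).tendsto_div_nhds_zero
  have h3 : Tendsto (fun L : ℕ => Real.sqrt (L : ℝ)) atTop atTop :=
    Real.tendsto_sqrt_atTop.comp tendsto_natCast_atTop_atTop
  have h4 := (h2.comp h3).const_mul 8
  rw [mul_zero] at h4
  have h5 : Tendsto (fun L : ℕ => Real.log L ^ 3 / Real.sqrt L) atTop (nhds 0) := by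
    refine h4.congr' ?_
    filter_upwards [eventually_ge_atTop 1] with L hL
    show 8 * (Real.log (Real.sqrt (L : ℝ)) ^ 3 / Real.sqrt (L : ℝ)) = _
    rw [Real.log_sqrt (Nat.cast_nonneg L)]
    ring
  have h6 := h1.add (h5.const_mul B)
  rw [mul_zero, add_zero] at h6
  exact h6

lemma zpow_K {L K : ℕ} (hL0 : (0 : ℝ) < (L : ℝ)) (hK : (K : ℝ) = 384) :
    ((L ^ K : ℕ) : ℝ) ^ (-(1 / 96) : ℝ) = ((L : ℝ) ^ 4)⁻¹ := by
  push_cast
  rw [← Real.rpow_natCast (L : ℝ) K, ← Real.rpow_mul hL0.le, ← Real.rpow_natCast (L : ℝ) 4,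
    ← Real.rpow_neg hL0.le, hK]
  norm_num

/-- **the first moment** -/
theorem moment (hΦ : Cl Φ) : ∀ ε : ℝ, 0 < ε → ∃ X0 : ℕ, ∀ X : ℕ, X0 ≤ X →
    |∑ m ∈ SB X, Φ X m * K0 m - 4 * ∑ n ∈ SB X, Φ X n| ≤ ε * X := by
  intro ε hε
  obtain ⟨C, hC1, hC⟩ := total hΦ
  obtain ⟨K, hK1, hK⟩ : ∃ K : ℕ, 1 ≤ K ∧ (K : ℝ) = 384 := ⟨384, by norm_num, by norm_num⟩
  obtain ⟨B, hB⟩ : ∃ B : ℝ, B = 8 * ((1680 * 2 * (18 : ℝ) ^ 3) * Real.sqrt 2 * (384 * 3) ^ 3) :=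
    ⟨_, rfl⟩
  have h1 := ((tendsto_err (2 * C) B).comp tendsto_L).eventually (gt_mem_nhds hε)
  obtain ⟨X0, hX0⟩ := eventually_atTop.1 (h1.and ((ev_HL K).and (eventually_ge_atTop 2)))
  refine ⟨X0, fun X hX => ?_⟩
  obtain ⟨h2, h3, h4⟩ := hX0 X hX
  obtain ⟨L, hL⟩ : ∃ L : ℕ, L = Nat.log 2 X + 1 := ⟨_, rfl⟩
  rw [← hL] at h3
  have hL2 : 2 ≤ L := by
    have : 1 ≤ Nat.log 2 X := Nat.le_log_of_pow_le (by norm_num) (by simpa using h4)
    omega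
  have hL0 : (0 : ℝ) < (L : ℝ) := by
    have : 0 < L := by omega
    exact_mod_cast this
  have h2' : 2 * C / (L : ℝ) + B * (Real.log L ^ 3 / Real.sqrt L) < ε := by
    rw [hL]
    exact h2
  have h5 := hC X (L ^ K) 2 (Nat.one_le_pow _ _ (by omega)) (by omega) (by norm_num) h3
  refine h5.trans ?_
  have hlgX : lg X = (L : ℝ) := by rw [hL]; exact lg_cast X
  have hXn : (0 : ℝ) ≤ X := Nat.cast_nonneg X
  have e1 := zpow_K hL0 hK
  have e2 : 2 * (C * (X * lg X ^ 3) * ((L ^ K : ℕ) : ℝ) ^ (-(1 / 96) : ℝ)) =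
      (2 * C / (L : ℝ)) * X := by
    rw [e1, hlgX]
    field_simp
  have hlg : lg (L ^ K) ≤ 384 * 3 * Real.log L := by
    have h6 := lg_pow_le L K (by omega) hK1
    have h7 := lg_le_log hL2
    rw [hK] at h6
    linarith
  have hlog : 0 ≤ Real.log (L : ℝ) := Real.log_natCast_nonneg L
  have h8 : lg (L ^ K) ^ 3 ≤ (384 * 3) ^ 3 * Real.log L ^ 3 := by
    rw [← mul_pow]
    exact pow_le_pow_left₀ (lg_pos _).le hlg 3
  have e3 : 8 * E4 X (L ^ K) 2 ≤ (B * (Real.log L ^ 3 / Real.sqrt L)) * X := by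
    unfold E4
    rw [hlgX, hB]
    have h9 : (X : ℝ) * lg (L ^ K) ^ 3 / Real.sqrt L ≤
        X * ((384 * 3) ^ 3 * Real.log L ^ 3) / Real.sqrt L := by
      apply div_le_div_of_nonneg_right _ (Real.sqrt_nonneg _)
      exact mul_le_mul_of_nonneg_left h8 hXn
    have h10 : 0 ≤ (1680 * 2 * (18 : ℝ) ^ 3) * Real.sqrt 2 := by positivity
    calc 8 * ((1680 * 2 * (18 : ℝ) ^ 3) * Real.sqrt 2 * ((X : ℝ) * lg (L ^ K) ^ 3 / Real.sqrt L)) ≤
        8 * ((1680 * 2 * (18 : ℝ) ^ 3) * Real.sqrt 2 *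
          (X * ((384 * 3) ^ 3 * Real.log L ^ 3) / Real.sqrt L)) := by
          apply mul_le_mul_of_nonneg_left _ (by norm_num)
          exact mul_le_mul_of_nonneg_left h9 h10
      _ = _ := by ring
  rw [e2]
  calc (2 * C / (L : ℝ)) * X + 8 * E4 X (L ^ K) 2 ≤
      (2 * C / (L : ℝ)) * X + (B * (Real.log L ^ 3 / Real.sqrt L)) * X := by linarith
    _ = (2 * C / (L : ℝ) + B * (Real.log L ^ 3 / Real.sqrt L)) * X := by ring
    _ ≤ ε * X := mul_le_mul_of_nonneg_right h2'.le hXn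

end Pool.Agent.U695.XM
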