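import Pool.Agent.U695.XM.Asm
import Pool.Agent.U695.XH.Sum
import Pool.Agent.U695.XR.Cls
import Pool.Agent.U695.XR.Dec

/-!
# The average dimension of the kernel of the Laplacian
-/

set_option autoImplicit false
set_option linter.unusedVariables false

open scoped Classical
open Finset Filter

namespace Pool.Agent.U695.XM

open H385 (ZI nrm)
open Pool.Agent.U695.XG Pool.Agent.U695.XH
open Pool.Agent.Y699 (PP PS PD SB mem_SB mem_PD qr Ind Ph PS_prod)
open Pool.Agent.U695.XR.Dec (nS_pow nS_succ sol_iff tv mem_tv tv_sub)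

/-- the elements of a class of the norm modulo 16 -/
noncomputable def A (q : Finset ℕ) (X : ℕ) : Finset ZI := (SB X).filter fun n => nrm n % 16 ∈ q

theorem card_A (q : Finset ℕ) (X : ℕ) : (A q X).card = (SS q X).card := (Dn.SS_card q X).symm

theorem card_AQ (q : Finset ℕ) (X : ℕ) (Q : Finset ZI → Prop) :
    ((A q X).filter fun D => Q (PD D)).card = ((SS q X).filter Q).card := by
  rw [← NSf.card_eq, ← Set.ncard_coe_finset]
  congr 1
  ext D
  unfold A
  rw [mem_coe, mem_filter, mem_filter, mem_SB]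
  constructor
  · rintro ⟨⟨⟨h1, h2⟩, h3⟩, h4⟩
    exact ⟨h1, ⟨h2, h3⟩, h4⟩
  · rintro ⟨h1, ⟨h2, h3⟩, h4⟩
    exact ⟨⟨⟨h1, h2⟩, h3⟩, h4⟩

/-- the two counts agree -/
theorem K0_nS {D : ZI} (hD : PS D) : K0 D = (nS (PD D) : ℝ) := by
  have hS : ∀ π ∈ PD D, PP π := fun π hπ => ((mem_PD hD.ne).1 hπ).1
  unfold K0 nS
  rw [Nat.cast_inj, ← Fintype.card_coe, ← Nat.card_eq_fintype_card]
  symm
  have hsol : ∀ v : PD D → ZMod 2, (∀ π : PD D, ∑ ρ : PD D, cs π ρ * (v ρ - v π) = 0) ↔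
      tv v ∈ (PD D).powerset.filter (Cond0 D) := by
    intro v
    rw [mem_filter, mem_powerset, sol_iff hS (tv_sub v) v (mem_tv v)]
    exact ⟨fun h => ⟨tv_sub v, h⟩, fun h => h.2⟩
  refine Nat.card_congr (Equiv.ofBijective (fun v : {v : PD D → ZMod 2 //
    ∀ π : PD D, ∑ ρ : PD D, cs π ρ * (v ρ - v π) = 0} =>
    (⟨tv v.1, (hsol v.1).1 v.2⟩ : {T // T ∈ (PD D).powerset.filter (Cond0 D)})) ⟨?_, ?_⟩)
  · intro v w hvw
    have h2 : tv v.1 = tv w.1 := congrArg Subtype.val hvw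
    apply Subtype.ext
    funext π
    have h3 : v.1 π = 1 ↔ w.1 π = 1 := by rw [mem_tv, mem_tv, h2]
    have key : ∀ a b : ZMod 2, (a = 1 ↔ b = 1) → a = b := by decide
    exact key _ _ h3
  · rintro ⟨T, hT⟩
    have hT' := hT
    rw [mem_filter, mem_powerset] at hT'
    set v : PD D → ZMod 2 := fun ρ => if (ρ : ZI) ∈ T then 1 else 0 with hv
    have htv : tv v = T := by
      ext ρ
      unfold tv
      rw [mem_filter]
      constructor
      · rintro ⟨h6, h7, h8⟩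
        by_contra h9
        rw [hv] at h8
        simp only [if_neg h9] at h8
        exact absurd h8 (by decide)
      · intro h6
        refine ⟨hT'.1 h6, hT'.1 h6, ?_⟩
        rw [hv]
        exact if_pos h6
    exact ⟨⟨v, (hsol v).2 (by rw [htv]; exact hT)⟩, Subtype.ext htv⟩

/-- the first moment in a class -/
def Mom (q : Finset ℕ) : Prop := Tendsto (fun X : ℕ =>
  (∑ D ∈ A q X, (nS (PD D) : ℝ)) / ((A q X).card : ℝ)) atTop (nhds 4)

theorem mom_of {q : Finset ℕ} (hq : S_LOW q) {Φ : ℕ → ZI → ℝ} (hΦ : Cl Φ)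
    (h : ∀ X, ∀ n ∈ SB X, Φ X n = if nrm n % 16 ∈ q then 1 else 0) : Mom q := by
  obtain ⟨c, X1, hc, h1⟩ := hq
  unfold Mom
  rw [Metric.tendsto_nhds]
  intro ε hε
  obtain ⟨X2, h2⟩ := moment hΦ (c * ε / 2) (by positivity)
  filter_upwards [eventually_ge_atTop X1, eventually_ge_atTop X2, eventually_ge_atTop 1]
    with X hX1 hX2 hX3
  have h3 := h1 X hX1
  rw [← card_A] at h3
  have h4 := h2 X hX2
  have hXp : (0 : ℝ) < X := by exact_mod_cast hX3
  have hN : (0 : ℝ) < ((A q X).card : ℝ) := lt_of_lt_of_le (by positivity) h3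
  have e4 : ∑ m ∈ SB X, Φ X m * K0 m = ∑ D ∈ A q X, (nS (PD D) : ℝ) := by
    unfold A
    rw [sum_filter]
    refine sum_congr rfl fun D hD => ?_
    rw [h X D hD, K0_nS (mem_SB.1 hD).2]
    split_ifs <;> simp
  have e5 : ∑ m ∈ SB X, Φ X m = ((A q X).card : ℝ) := by
    unfold A
    rw [card_filter, Nat.cast_sum]
    refine sum_congr rfl fun D hD => ?_
    rw [h X D hD]
    split_ifs <;> simp
  rw [e4, e5] at h4
  rw [Real.dist_eq]
  have e : (∑ D ∈ A q X, (nS (PD D) : ℝ)) / ((A q X).card : ℝ) - 4 =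
      (∑ D ∈ A q X, (nS (PD D) : ℝ) - 4 * ((A q X).card : ℝ)) / ((A q X).card : ℝ) := by
    field_simp
  rw [e, abs_div, abs_of_pos hN, div_lt_iff₀ hN]
  refine lt_of_le_of_lt h4 ?_
  have h5 : c * ε / 2 * X = ε / 2 * (c * X) := by ring
  have h6 : ε / 2 * (c * X) ≤ ε / 2 * ((A q X).card : ℝ) :=
    mul_le_mul_of_nonneg_left h3 (by linarith)
  have h7 : 0 < ε * ((A q X).card : ℝ) := by positivity
  linarith

theorem mod16 {n : ZI} (h : PS n) : nrm n % 4 = 1 := Lt.nrm_mod4 h.prm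

theorem mom_all : Mom {1, 5, 9, 13} := by
  refine mom_of XR.Cls.low_all cl_Ind fun X n hn => ?_
  rw [mem_SB] at hn
  have h1 := mod16 hn.2
  unfold Ind
  rw [if_pos ⟨hn.2, hn.1⟩, if_pos]
  simp only [mem_insert, mem_singleton]
  omega

theorem ph_eq {X : ℕ} {n : ZI} (hn : n ∈ SB X) : Ph X n = if nrm n % 16 ∈ ({5, 13} : Finset ℕ)
    then 1 else 0 := by
  rw [mem_SB] at hn
  have h1 := mod16 hn.2
  have h2 := Pool.Agent.Y699.nrm_cast n
  unfold Ph
  by_cases h : n.norm % 8 = 5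
  · rw [if_pos ⟨hn.2, hn.1, h⟩, if_pos]
    simp only [mem_insert, mem_singleton]
    omega
  · rw [if_neg (fun h' => h h'.2.2), if_neg]
    simp only [mem_insert, mem_singleton]
    omega

theorem mom_five : Mom {5, 13} := mom_of NSf.low5 cl_Ph fun X n hn => ph_eq hn

/-- the elements of norm `1` modulo `8` -/
noncomputable def Ph1 (X : ℕ) (D : ZI) : ℝ := Ind X D - Ph X D

open Pool.Agent.H304R2.EC.A1 in
theorem cl_Ph1 : Cl Ph1 := by
  have hval : ∀ X D, Ph1 X D = if PS D ∧ nrm D ≤ X ∧ D.norm % 8 ≠ 5 then 1 else 0 := by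
    intro X D
    unfold Ph1 Ind Ph
    by_cases h1 : PS D ∧ nrm D ≤ X
    · by_cases h2 : D.norm % 8 = 5
      · rw [if_pos h1, if_pos ⟨h1.1, h1.2, h2⟩, if_neg (fun h => h.2.2 h2)]; norm_num
      · rw [if_pos h1, if_neg (fun h => h2 h.2.2), if_pos ⟨h1.1, h1.2, h2⟩]; norm_num
    · rw [if_neg h1, if_neg (fun h => h1 ⟨h.1, h.2.1⟩), if_neg (fun h => h1 ⟨h.1, h.2.1⟩)]; norm_num
  refine ⟨fun X n => ?_, fun X n => ?_, fun X n h => ?_, ?_⟩
  · rw [hval]; split_ifs <;> norm_num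
  · rw [hval]; split_ifs <;> norm_num
  · rw [hval] at h
    by_contra h'
    rw [if_neg (fun h2 => h' ⟨h2.1, h2.2.1⟩)] at h
    exact h rfl
  · obtain ⟨C, hC1, hC⟩ := Pool.Agent.Y699.blp
    obtain ⟨C', hC1', hC'⟩ := Pool.Agent.Y699.blw
    refine ⟨C + C', by linarith, ?_⟩
    intro u v hu hv Z X hZ hu0 hv0 r hr
    have h1 := hC u v hu hv Z X hZ hu0 hv0 r hr
    have h2 := hC' u v hu hv Z X hZ hu0 hv0 r hr
    have e1 : ∑ x ∈ SB X, ∑ y ∈ SB X, Ph1 X (x * y * r) * (u x * v y * Pool.Agent.Y699.jac x y) =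
        ∑ x ∈ SB X, ∑ y ∈ SB X, Ind X (x * y * r) * (u x * v y * Pool.Agent.Y699.jac x y) -
        ∑ x ∈ SB X, ∑ y ∈ SB X, Ph X (x * y * r) * (u x * v y * Pool.Agent.Y699.jac x y) := by
      rw [← sum_sub_distrib]
      refine sum_congr rfl fun x _ => ?_
      rw [← sum_sub_distrib]
      refine sum_congr rfl fun y _ => ?_
      unfold Ph1
      ring
    rw [e1]
    refine (abs_sub _ _).trans ((add_le_add h1 h2).trans (le_of_eq ?_))
    ring

/-- the dimension of the kernel minus one -/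
noncomputable def rr (S : Finset ZI) : ℕ := Nat.log 2 (nS S) - 1

theorem rr_of {S : Finset ZI} {r : ℕ} (h : nS S = 2 ^ (r + 1)) : rr S = r := by
  unfold rr
  rw [h, Nat.log_pow (by norm_num)]
  rfl

theorem rr_empty : rr ∅ = 0 := by
  unfold rr
  have h := nS_pow ∅
  have h1 : nS ∅ = 1 := by
    unfold nS
    rw [Nat.card_eq_one_iff_unique]
    refine ⟨⟨fun a b => ?_⟩, ⟨⟨fun π => 0, fun π => ?_⟩⟩⟩
    · apply Subtype.ext
      funext π
      exact absurd π.2 (Finset.notMem_empty _)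
    · exact absurd π.2 (Finset.notMem_empty _)
  rw [h1]
  rfl

theorem lin_pow (a n : ℕ) (r : ℕ) (hn : 1 ≤ n) (ha : a ≤ 2 ^ n) (h : n ≤ r) :
    r * a ≤ n * 2 ^ r := by
  induction r, h using Nat.le_induction with
  | base => exact Nat.mul_le_mul_left _ ha
  | succ r hr ih =>
    have h1 : a ≤ 2 ^ r := ha.trans (Nat.pow_le_pow_right (by norm_num) hr)
    have h2 : 1 * 2 ^ r ≤ n * 2 ^ r := Nat.mul_le_mul_right _ hn
    have h3 : n * 2 ^ (r + 1) = 2 * (n * 2 ^ r) := by ring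
    have h4 : (r + 1) * a = r * a + a := by ring
    rw [h3, h4]
    linarith

/-- the truncated dimension -/
noncomputable def tr (R : ℕ) (S : Finset ZI) : ℝ :=
  ∑ r ∈ range R, (r : ℝ) * (if Gr r S then 1 else 0)

theorem tr_eq {R : ℕ} {S : Finset ZI} {s : ℕ} (hs : nS S = 2 ^ (s + 1)) :
    tr R S = if s < R then (s : ℝ) else 0 := by
  have hg : ∀ r, Gr r S ↔ r = s := by
    intro r
    unfold Gr
    rw [hs]
    constructor
    · intro h
      have h3 := Nat.pow_right_injective (le_refl 2) h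
      omega
    · rintro rfl
      rfl
  unfold tr
  by_cases h : s < R
  · rw [if_pos h, sum_eq_single s]
    · rw [if_pos ((hg s).2 rfl), mul_one]
    · intro r _ hr
      rw [if_neg (fun h => hr ((hg r).1 h)), mul_zero]
    · intro h2
      exact absurd (mem_range.2 h) h2
  · rw [if_neg h]
    refine sum_eq_zero fun r hr => ?_
    rw [mem_range] at hr
    rw [if_neg (fun h' => h ?_), mul_zero]
    rw [← (hg r).1 h']
    exact hr

theorem tr_le (R : ℕ) (S : Finset ZI) : tr R S ≤ (rr S : ℝ) := by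
  by_cases hS : S.Nonempty
  · obtain ⟨s, hs⟩ := nS_succ hS
    rw [tr_eq hs, rr_of hs]
    split_ifs
    · exact le_rfl
    · exact Nat.cast_nonneg _
  · rw [not_nonempty_iff_eq_empty] at hS
    subst hS
    rw [rr_empty, Nat.cast_zero]
    refine le_of_eq (sum_eq_zero fun r hr => ?_)
    by_cases h : Gr r (∅ : Finset ZI)
    · have h1 := rr_of (S := (∅ : Finset ZI)) h
      rw [rr_empty] at h1
      rw [← h1]
      simp
    · rw [if_neg h, mul_zero]

theorem le_tr {R : ℕ} (hR : 1 ≤ R) (S : Finset ZI) :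
    (rr S : ℝ) ≤ tr R S + R / 2 ^ (R + 1) * (nS S : ℝ) := by
  have h0 : (0 : ℝ) ≤ R / 2 ^ (R + 1) * (nS S : ℝ) := by positivity
  by_cases hS : S.Nonempty
  · obtain ⟨s, hs⟩ := nS_succ hS
    rw [tr_eq hs, rr_of hs]
    by_cases h : s < R
    · rw [if_pos h]
      linarith
    · rw [if_neg h, zero_add, hs, div_mul_eq_mul_div, le_div_iff₀ (by positivity)]
      have h2 := lin_pow (2 ^ R) R s hR le_rfl (by omega)
      have h3 : (s : ℝ) * 2 ^ R ≤ R * 2 ^ s := by exact_mod_cast h2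
      push_cast
      have e1 : (s : ℝ) * 2 ^ (R + 1) = 2 * (s * 2 ^ R) := by ring
      have e2 : (R : ℝ) * 2 ^ (s + 1) = 2 * (R * 2 ^ s) := by ring
      rw [e1, e2]
      linarith
  · rw [not_nonempty_iff_eq_empty] at hS
    subst hS
    rw [rr_empty, Nat.cast_zero]
    have h1 : 0 ≤ tr R (∅ : Finset ZI) := sum_nonneg fun r _ => by split_ifs <;> positivity
    linarith

/-- the mean of the limit law -/
noncomputable def mu : ℝ := ∑' r : ℕ, (r : ℝ) * cr r

theorem cr_nonneg (r : ℕ) : 0 ≤ cr r := by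
  unfold cr
  have h : 0 ≤ c2 := t_C2.2.1.le
  refine div_nonneg h (prod_nonneg fun i _ => ?_)
  have : (1 : ℝ) ≤ 2 ^ (i + 1) := one_le_pow₀ (by norm_num)
  linarith

theorem prod_ge (r : ℕ) : (2 : ℝ) ^ (r - 1) ≤ ∏ i ∈ range r, ((2 : ℝ) ^ (i + 1) - 1) := by
  induction r with
  | zero => simp
  | succ r ih =>
    rw [prod_range_succ]
    cases r with
    | zero => norm_num
    | succ r =>
      have h1 : (1 : ℝ) ≤ 2 ^ r := one_le_pow₀ (by norm_num)
      have e1 : (2 : ℝ) ^ (r + 1 + 1) = 4 * 2 ^ r := by ring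
      have h2 : (2 : ℝ) ≤ 2 ^ (r + 1 + 1) - 1 := by rw [e1]; linarith
      have e2 : (2 : ℝ) ^ (r + 1 + 1 - 1) = 2 ^ (r + 1 - 1) * 2 := by
        rw [Nat.add_sub_cancel, Nat.add_sub_cancel, pow_succ]
      rw [e2]
      exact mul_le_mul ih h2 (by norm_num) (le_trans (by positivity) ih)

theorem summable_mu : Summable fun r : ℕ => (r : ℝ) * cr r := by
  have h1 : Summable fun r : ℕ => (r : ℝ) ^ 1 * (1 / 2 : ℝ) ^ r :=
    summable_pow_mul_geometric_of_norm_lt_one 1 (by norm_num)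
  have h2 := h1.mul_left 2
  refine Summable.of_nonneg_of_le (fun r => mul_nonneg (Nat.cast_nonneg _) (cr_nonneg r)) (fun r => ?_) h2
  have h3 := prod_ge r
  have hc : c2 < 1 := t_C2.2.2.1
  have hc0 : 0 < c2 := t_C2.2.1
  have h4 : (0 : ℝ) < 2 ^ (r - 1) := by positivity
  have h5 : cr r ≤ 2 * (1 / 2 : ℝ) ^ r := by
    unfold cr
    calc c2 / ∏ i ∈ range r, ((2 : ℝ) ^ (i + 1) - 1) ≤ 1 / 2 ^ (r - 1) :=
          div_le_div₀ zero_le_one hc.le h4 h3
      _ ≤ 2 * (1 / 2 : ℝ) ^ r := by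
          cases r with
          | zero => norm_num
          | succ r =>
            rw [Nat.add_sub_cancel, div_pow, one_pow, pow_succ]
            apply le_of_eq
            field_simp
  calc (r : ℝ) * cr r ≤ r * (2 * (1 / 2 : ℝ) ^ r) := mul_le_mul_of_nonneg_left h5 (Nat.cast_nonneg _)
    _ = 2 * ((r : ℝ) ^ 1 * (1 / 2 : ℝ) ^ r) := by ring

theorem hasSum_mu : HasSum (fun r : ℕ => (r : ℝ) * cr r) mu := summable_mu.hasSum

/-- the truncated mean -/
theorem tends_tr {q : Finset ℕ} (hq : S_LOW q) (R : ℕ) : Tendsto (fun X : ℕ =>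
    (∑ D ∈ A q X, tr R (PD D)) / ((A q X).card : ℝ)) atTop
      (nhds (∑ r ∈ range R, (r : ℝ) * cr r)) := by
  refine (tendsto_finsetSum (range R) fun r _ => (t_law hq r).const_mul (r : ℝ)).congr fun X => ?_
  unfold tr
  rw [sum_comm, Finset.sum_div]
  refine sum_congr rfl fun r _ => ?_
  rw [← mul_sum, ← card_AQ q X (Gr r), card_A, card_filter]
  push_cast
  ring

/-- **the mean dimension** -/
theorem tends_mu {q : Finset ℕ} (hq : S_LOW q) (hm : Mom q) : Tendsto (fun X : ℕ =>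
    (∑ D ∈ A q X, (rr (PD D) : ℝ)) / ((A q X).card : ℝ)) atTop (nhds mu) := by
  rw [Metric.tendsto_nhds]
  intro ε hε
  have h1 := hasSum_mu.tendsto_sum_nat
  have h2 : Tendsto (fun R : ℕ => (R : ℝ) / 2 ^ (R + 1) * 4) atTop (nhds 0) := by
    have h3 := (tendsto_pow_const_div_const_pow_of_one_lt 1 (show (1 : ℝ) < 2 by norm_num)).const_mul 2
    rw [mul_zero] at h3
    refine h3.congr fun R => ?_
    rw [pow_one, pow_succ]
    field_simp
    ring
  obtain ⟨R, hR1, hR2, hR3⟩ := ((h1.eventually (lt_mem_nhds (show mu - ε / 2 < mu by linarith))).and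
    ((h2.eventually (gt_mem_nhds (show (0 : ℝ) < ε / 2 by linarith))).and
      (eventually_ge_atTop 1))).exists
  have hle : ∑ r ∈ range R, (r : ℝ) * cr r ≤ mu :=
    hasSum_mu.summable.sum_le_tsum _ (fun r _ => mul_nonneg (Nat.cast_nonneg _) (cr_nonneg r))
  obtain ⟨c, X1, hc, hlow⟩ := hq
  have h4 := tends_tr ⟨c, X1, hc, hlow⟩ R
  have h5 := h4.add (hm.const_mul ((R : ℝ) / 2 ^ (R + 1)))
  filter_upwards [h4.eventually (lt_mem_nhds (show ∑ r ∈ range R, (r : ℝ) * cr r - ε / 2 <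
    ∑ r ∈ range R, (r : ℝ) * cr r by linarith)),
    h5.eventually (gt_mem_nhds (show ∑ r ∈ range R, (r : ℝ) * cr r + (R : ℝ) / 2 ^ (R + 1) * 4 <
      mu + ε by linarith)), eventually_ge_atTop X1, eventually_ge_atTop 1] with X g1 g2 hX1 hX2
  have hX0 : (0 : ℝ) < X := by exact_mod_cast hX2
  have hN : (0 : ℝ) < ((A q X).card : ℝ) := by
    rw [card_A]
    exact lt_of_lt_of_le (by positivity) (hlow X hX1)
  have l1 : (∑ D ∈ A q X, tr R (PD D)) / ((A q X).card : ℝ) ≤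
      (∑ D ∈ A q X, (rr (PD D) : ℝ)) / ((A q X).card : ℝ) :=
    div_le_div_of_nonneg_right (sum_le_sum fun D _ => tr_le R _) hN.le
  have l2 : (∑ D ∈ A q X, (rr (PD D) : ℝ)) / ((A q X).card : ℝ) ≤
      (∑ D ∈ A q X, tr R (PD D)) / ((A q X).card : ℝ) +
      (R : ℝ) / 2 ^ (R + 1) * ((∑ D ∈ A q X, (nS (PD D) : ℝ)) / ((A q X).card : ℝ)) := by
    rw [← mul_div_assoc, ← add_div]
    refine div_le_div_of_nonneg_right ?_ hN.le
    rw [mul_sum, ← sum_add_distrib]
    exact sum_le_sum fun D _ => le_tr hR3 _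
  rw [Real.dist_eq, abs_lt]
  constructor <;> linarith

theorem mu_low : 0.764 < mu := by
  have h1 : ∑ r ∈ range 5, (r : ℝ) * cr r ≤ mu :=
    hasSum_mu.summable.sum_le_tsum _ (fun r _ => mul_nonneg (Nat.cast_nonneg _) (cr_nonneg r))
  refine lt_of_lt_of_le ?_ h1
  have hc : 0.4194 < c2 := t_C2.2.2.2.1
  unfold cr
  simp only [sum_range_succ, prod_range_succ, range_zero, sum_empty, prod_empty]
  norm_num at hc ⊢
  linarith

theorem upper {q : Finset ℕ} {R : ℕ} (hR : 1 ≤ R) (X : ℕ) :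
    (∑ D ∈ A q X, (rr (PD D) : ℝ)) / ((A q X).card : ℝ) ≤
      (∑ D ∈ A q X, tr R (PD D)) / ((A q X).card : ℝ) +
      (R : ℝ) / 2 ^ (R + 1) * ((∑ D ∈ A q X, (nS (PD D) : ℝ)) / ((A q X).card : ℝ)) := by
  rw [← mul_div_assoc, ← add_div]
  refine div_le_div_of_nonneg_right ?_ (Nat.cast_nonneg _)
  rw [mul_sum, ← sum_add_distrib]
  exact sum_le_sum fun D _ => le_tr hR _

theorem mu_le {R : ℕ} (hR : 1 ≤ R) :
    mu ≤ ∑ r ∈ range R, (r : ℝ) * cr r + (R : ℝ) / 2 ^ (R + 1) * 4 :=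
  le_of_tendsto_of_tendsto' (tends_mu NSf.low5 mom_five)
    ((tends_tr NSf.low5 R).add (mom_five.const_mul _)) fun X => upper hR X

theorem mu_up : mu < 0.765 := by
  refine lt_of_le_of_lt (mu_le (R := 20) (by norm_num)) ?_
  have hc : c2 < 0.4195 := t_C2.2.2.2.2
  unfold cr
  simp only [sum_range_succ, prod_range_succ, range_zero, sum_empty, prod_empty]
  norm_num at hc ⊢
  linarith

end Pool.Agent.U695.XM
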