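import Pool.Agent.Y699.Rgm

/-!
# The number of the decompositions of a squarefree Gaussian integer, on average

The first moment over all primary squarefree elements and over a class; the estimates are those of the
library files `Y699/Pr`, `Y699/Six`, `Y699/Rgm`.
-/

set_option autoImplicit false
set_option linter.unusedVariables false

open Finset

namespace Pool.Agent.U695.XM

open H385 (ZI RQ im1 nrm BX)
open H385.H10 (mem_BX nrm_pos Dv mem_Dv card_Dv)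
open Pool.Agent.W164.RC (two2 prim_iff_dvd unit_norm unit_cases)
open Pool.Agent.H304R2.EC.A1 (prim prim_mul prim_cancel prim_one prim_norm_odd prim_star eq_one_of_prim
  norm_def' re_mul' im_mul' eq_of_dvd prim_ne_zero exists_prim)
open Pool.Agent.Y699

/-- a weight function of a class of elements -/
structure Cl (Φ : ℕ → ZI → ℝ) : Prop where
  nn : ∀ X n, 0 ≤ Φ X n
  le : ∀ X n, Φ X n ≤ 1
  ne : ∀ X n, Φ X n ≠ 0 → PS n ∧ nrm n ≤ X
  bl : ∃ C : ℝ, 1 ≤ C ∧ ∀ (u v : ZI → ℝ), (∀ x, |u x| ≤ 1) → (∀ x, |v x| ≤ 1) →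
    ∀ Z X : ℕ, 1 ≤ Z → (∀ x, nrm x ≤ Z → u x = 0) → (∀ x, nrm x ≤ Z → v x = 0) → ∀ r : ZI, prim r →
    |∑ x ∈ SB X, ∑ y ∈ SB X, Φ X (x * y * r) * (u x * v y * jac x y)| ≤
      C * ((X : ℝ) / nrm r * lg X) * (Z : ℝ) ^ (-(1 / 96) : ℝ)

theorem cl_Ind : Cl Ind where
  nn X n := by unfold Ind; split_ifs <;> norm_num
  le X n := by unfold Ind; split_ifs <;> norm_num
  ne X n h := by
    unfold Ind at h
    by_contra h'
    rw [if_neg h'] at h
    exact h rfl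
  bl := blp

theorem cl_Ph : Cl Ph where
  nn := Ph_nonneg
  le := Ph_le
  ne X n h := ⟨(Ph_ne h).1, (Ph_ne h).2.1⟩
  bl := blw

variable {Φ : ℕ → ZI → ℝ}

lemma Cl.r (hΦ : Cl Φ) {X : ℕ} {r : ZI} (hr : prim r) : ∀ n, Φ X (n * r) ≠ 0 → PS n ∧ nrm n ≤ X := by
  intro n h
  obtain ⟨h1, h2⟩ := hΦ.ne _ _ h
  have hn : prim n := prim_cancel hr (by rw [mul_comm]; exact h1.prm)
  refine ⟨((PS.mul_iff hn hr).1 h1).1, ?_⟩
  refine le_trans ?_ h2
  rw [nrm_mul]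
  exact Nat.le_mul_of_pos_right _ (nrm_pos' (prim_ne_zero hr))

/-- restriction to small elements -/
lemma Cl.sum_le (hΦ : Cl Φ) {X : ℕ} {r : ZI} (hr : prim r) {f : ZI → ℝ} (hf : ∀ n, 0 ≤ f n) :
    ∑ n ∈ SB X, Φ X (n * r) * f n ≤ ∑ n ∈ SB (X / nrm r), f n := by
  have h1 : ∑ n ∈ SB X, Φ X (n * r) * f n = ∑ n ∈ SB (X / nrm r), Φ X (n * r) * f n := by
    symm
    refine sum_subset (SB_mono (Nat.div_le_self _ _)) ?_
    intro n hn hn'
    by_contra h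
    have h2 := left_ne_zero_of_mul h
    obtain ⟨h3, h4⟩ := hΦ.ne _ _ h2
    apply hn'
    rw [mem_SB, Nat.le_div_iff_mul_le (nrm_pos' (prim_ne_zero hr)), ← nrm_mul]
    exact ⟨h4, (mem_SB.1 hn).2⟩
  rw [h1]
  refine sum_le_sum fun n _ => ?_
  exact mul_le_of_le_one_left (hf n) (hΦ.le _ _)

/-- two free variables -/
theorem Cl.hsw (hΦ : Cl Φ) {A B r : ZI} (hAB : PS (A * B)) (hA : prim A) (hB : prim B) (h1 : A * B ≠ 1)
    (hr : prim r) (hd : A * B ∣ r) (X : ℕ) :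
    |∑ c ∈ SB X, ∑ e ∈ SB X, Φ X (c * e * r) * (wt2 c * wt2 e * jac A e * jac B c)| ≤
      1680 * Real.sqrt (lg (nrm (A * B))) * ((X / nrm r : ℕ) / Real.sqrt (lg (X / nrm r))) := by
  classical
  obtain ⟨pA, pB, cAB⟩ := (PS.mul_iff hA hB).1 hAB
  have e1 := pr_sum (X := X) (Φ := fun n => Φ X (n * r)) (hΦ.r hr)
    (fun c e => wt2 c * wt2 e * (jac A e : ℝ) * jac B c)
  rw [e1]
  have e2 : ∀ n ∈ SB X, ∑ S ∈ (PD n).powerset, wt2 (∏ π ∈ S, π) * wt2 (∏ π ∈ PD n \ S, π) *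
      (jac A (∏ π ∈ PD n \ S, π) : ℝ) * jac B (∏ π ∈ S, π) =
      ∏ π ∈ PD n, ((1 / 2) * (jac B π : ℝ) + (1 / 2) * jac A π) := by
    intro n hn
    rw [mem_SB] at hn
    rw [prod_add]
    refine sum_congr rfl fun S hS => ?_
    have hSP : ∀ π ∈ S, PP π := fun π hπ => ((mem_PD hn.2.ne).1 (mem_powerset.1 hS hπ)).1
    have hSP' : ∀ π ∈ PD n \ S, PP π := fun π hπ => ((mem_PD hn.2.ne).1 (mem_sdiff.1 hπ).1).1
    unfold wt2
    rw [mf_prod hSP, mf_prod hSP', jac_prod' pA.ne, jac_prod' pB.ne, prod_mul_distrib, prod_mul_distrib]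
    ring
  rw [sum_congr rfl (fun n hn => by rw [e2 n hn])]
  refine (abs_sum_le_sum_abs _ _).trans ?_
  have e3 : ∀ n ∈ SB X, |Φ X (n * r) * ∏ π ∈ PD n, ((1 / 2) * (jac B π : ℝ) + (1 / 2) * jac A π)| ≤
      Φ X (n * r) * mf (fun π => (1 + (jac (A * B) π : ℝ)) / 2) n := by
    intro n hn
    rw [mem_SB] at hn
    rw [abs_mul, abs_of_nonneg (hΦ.nn _ _)]
    by_cases h0 : Φ X (n * r) = 0
    · rw [h0, zero_mul, zero_mul]
    · apply mul_le_mul_of_nonneg_left _ (hΦ.nn _ _)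
      rw [abs_prod]
      unfold mf
      refine prod_le_prod (fun _ _ => abs_nonneg _) ?_
      intro π hπ
      obtain ⟨h2, -⟩ := hΦ.ne _ _ h0
      have hcop := ((PS.mul_iff hn.2.prm hr).1 h2).2.2
      have hπ' := (mem_PD hn.2.ne).1 hπ
      have hπr : IsCoprime π (A * B) := (hcop.of_isCoprime_of_dvd_left hπ'.2).of_isCoprime_of_dvd_right hd
      have c1 : IsCoprime A π := (hπr.of_mul_right_left).symm
      have c2 : IsCoprime B π := (hπr.of_mul_right_right).symm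
      have n1 := jac_ne_zero pA c1
      have n2 := jac_ne_zero pB c2
      rw [jac_mul_left pA.ne pB.ne cAB]
      rcases jac_cases A π with h | h | h
      · exact absurd h n1
      · rcases jac_cases B π with h' | h' | h'
        · exact absurd h' n2
        · rw [h, h']; norm_num
        · rw [h, h']; norm_num
      · rcases jac_cases B π with h' | h' | h'
        · exact absurd h' n2
        · rw [h, h']; norm_num
        · rw [h, h']; norm_num [abs_of_neg]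
  refine (sum_le_sum e3).trans ?_
  have hnn : ∀ n, 0 ≤ mf (fun π => (1 + (jac (A * B) π : ℝ)) / 2) n := by
    apply mf_nonneg
    intro π
    rcases jac_cases (A * B) π with h | h | h <;> rw [h] <;> norm_num
  exact (hΦ.sum_le hr hnn).trans (hallG hAB h1 _)

/-- one free variable -/
theorem Cl.hsw0 (hΦ : Cl Φ) {r : ZI} (hr : prim r) (X : ℕ) :
    ∑ e ∈ SB X, Φ X (e * r) * wt2 e ≤ 126 * ((X / nrm r : ℕ) / Real.sqrt (lg (X / nrm r))) :=
  (hΦ.sum_le hr wt2_nonneg).trans (hall0 _)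

/-- the kernel condition -/
def Cond0 (n : ZI) (S : Finset ZI) : Prop :=
  (∀ π ∈ S, qr π (∏ ρ ∈ PD n \ S, ρ) = 1) ∧ ∀ π ∈ PD n \ S, qr π (∏ ρ ∈ S, ρ) = 1

open Classical in
/-- the number of kernel elements -/
noncomputable def K0 (n : ZI) : ℝ := (((PD n).powerset.filter (Cond0 n)).card : ℝ)

/-- the summand -/
noncomputable def G0 (a b c e : ZI) : ℝ := wt2 a * wt2 b * wt2 c * wt2 e * (jac a e * jac b c)

/-- the pointwise identity -/
theorem G0_sum {m : ZI} (pm : PS m) {S : Finset ZI} (hS : S ⊆ PD m) :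
    ∑ A ∈ S.powerset, ∑ C ∈ (PD m \ S).powerset,
      G0 (∏ π ∈ A, π) (∏ π ∈ S \ A, π) (∏ π ∈ C, π) (∏ π ∈ (PD m \ S) \ C, π) =
    open Classical in (if Cond0 m S then (1 : ℝ) else 0) := by
  classical
  have hm0 := pm.ne
  have hPD : ∀ π ∈ PD m, PP π := fun π hπ => ((mem_PD hm0).1 hπ).1
  have hSP : ∀ π ∈ S, PP π := fun π hπ => hPD π (hS hπ)
  have hSP' : ∀ π ∈ PD m \ S, PP π := fun π hπ => hPD π (mem_sdiff.1 hπ).1
  set d := ∏ π ∈ S, π with hd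
  set n := ∏ π ∈ PD m \ S, π with hn
  have hdn : d * n = m := by
    rw [hd, hn, mul_comm, prod_sdiff hS]
    exact pm.prod
  obtain ⟨pd, pn⟩ := (PS_prod hSP)
  obtain ⟨pd', pn'⟩ := (PS_prod hSP')
  rw [← hd] at pd pn
  rw [← hn] at pd' pn'
  have cdn : IsCoprime d n := by
    have : PS (d * n) := by rw [hdn]; exact pm
    exact ((PS.mul_iff pd.prm pd'.prm).1 this).2.2
  -- signs
  have sgn : ∀ {π x : ZI}, PP π → IsCoprime π x → qr π x = 1 ∨ qr π x = -1 := by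
    intro π x hπ hx
    apply qr_cases
    intro h
    exact hπ.pr.not_isUnit (hx.isUnit_of_dvd' dvd_rfl h)
  have s1 : ∀ π ∈ S, qr π n = 1 ∨ qr π n = -1 := by
    intro π hπ
    have hπd : π ∣ d := dvd_prod_of_mem _ hπ
    refine sgn (hSP π hπ) ?_
    exact cdn.of_isCoprime_of_dvd_left hπd
  have s2 : ∀ π ∈ PD m \ S, qr π d = 1 ∨ qr π d = -1 := by
    intro π hπ
    have hπd : π ∣ n := dvd_prod_of_mem _ hπ
    refine sgn (hSP' π hπ) ?_
    exact cdn.symm.of_isCoprime_of_dvd_left hπd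
  have e1 : (if Cond0 m S then (1 : ℝ) else 0) =
      (∏ π ∈ S, ((1 / 2 : ℝ) * qr π n + 1 / 2)) * (∏ π ∈ PD m \ S, ((1 / 2 : ℝ) * qr π d + 1 / 2)) := by
    rw [prod_congr rfl (fun π hπ => half_sign (s1 π hπ)), prod_congr rfl (fun π hπ => half_sign (s2 π hπ)),
      prod_boole, prod_boole]
    unfold Cond0
    rw [← hd, ← hn]
    by_cases c1 : ∀ π ∈ S, qr π n = 1
    · by_cases c2 : ∀ π ∈ PD m \ S, qr π d = 1
      · rw [if_pos ⟨c1, c2⟩, if_pos c1, if_pos c2]; norm_num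
      · rw [if_neg (fun h => c2 h.2), if_neg c2]; norm_num
    · rw [if_neg (fun h => c1 h.1), if_neg c1]; norm_num
  rw [e1, prod_half hSP, prod_half hSP', sum_mul_sum]
  refine sum_congr rfl fun A hA => ?_
  refine sum_congr rfl fun C hC => ?_
  rw [mem_powerset] at hA hC
  have hAP : ∀ π ∈ A, PP π := fun π hπ => hSP π (hA hπ)
  have hAP' : ∀ π ∈ S \ A, PP π := fun π hπ => hSP π (mem_sdiff.1 hπ).1
  have hCP : ∀ π ∈ C, PP π := fun π hπ => hSP' π (hC hπ)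
  have hCP' : ∀ π ∈ (PD m \ S) \ C, PP π := fun π hπ => hSP' π (mem_sdiff.1 hπ).1
  obtain ⟨pa, -⟩ := PS_prod hAP
  obtain ⟨pb, -⟩ := PS_prod hAP'
  obtain ⟨pc, -⟩ := PS_prod hCP
  obtain ⟨pe, -⟩ := PS_prod hCP'
  have hab : (∏ π ∈ A, π) * (∏ π ∈ S \ A, π) = d := by rw [mul_comm, prod_sdiff hA]
  have hce : (∏ π ∈ C, π) * (∏ π ∈ (PD m \ S) \ C, π) = n := by rw [mul_comm, prod_sdiff hC]
  set a := ∏ π ∈ A, π
  set b := ∏ π ∈ S \ A, π
  set c := ∏ π ∈ C, π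
  set e := ∏ π ∈ (PD m \ S) \ C, π
  have ad : a ∣ d := ⟨b, hab.symm⟩
  have cn : c ∣ n := ⟨e, hce.symm⟩
  have cac : IsCoprime a c := (cdn.of_isCoprime_of_dvd_left ad).of_isCoprime_of_dvd_right cn
  have j1 : (jac a n : ℝ) = jac a c * jac a e := by
    rw [← hce, jac_mul_right pa.ne]
    push_cast
    ring
  have j2 : (jac c d : ℝ) = jac a c * jac b c := by
    rw [← hab, jac_mul_right pc.ne, jac_rec pc pa, jac_rec pc pb]
    push_cast
    ring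
  have q3 := jac_sq pa cac
  rw [j1, j2]
  unfold G0
  generalize (jac a c : ℝ) = x7 at *
  have : wt2 a * (x7 * (jac a e : ℝ)) * wt2 b * (wt2 c * (x7 * (jac b c : ℝ)) * wt2 e) =
      (wt2 a * wt2 b * wt2 c * wt2 e * ((jac a e : ℝ) * jac b c)) * (x7 ^ 2) := by
    ring
  rw [this, q3, mul_one]

/-- **the average as a sum over factorisations** -/
theorem K0_sum (hΦ : Cl Φ) (X : ℕ) :
    ∑ m ∈ SB X, Φ X m * K0 m =
      ∑ a ∈ SB X, ∑ b ∈ SB X, ∑ c ∈ SB X, ∑ e ∈ SB X, Φ X (a * b * c * e) * G0 a b c e := by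
  classical
  -- the sum over c, e
  have e1 : ∀ a ∈ SB X, ∀ b ∈ SB X, ∑ c ∈ SB X, ∑ e ∈ SB X, Φ X (a * b * c * e) * G0 a b c e =
      ∑ n ∈ SB X, Φ X (a * b * n) * ∑ C ∈ (PD n).powerset,
        G0 a b (∏ π ∈ C, π) (∏ π ∈ PD n \ C, π) := by
    intro a ha b hb
    rw [mem_SB] at ha hb
    have hr : prim (a * b) := prim_mul ha.2.prm hb.2.prm
    have h1 := pr_sum (X := X) (Φ := fun n => Φ X (n * (a * b))) (hΦ.r hr)
      (fun c e => G0 a b c e)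
    have h2 : ∀ n, n * (a * b) = a * b * n := fun n => by ring
    simp only [h2] at h1
    rw [← h1]
    refine sum_congr rfl fun c _ => sum_congr rfl fun e _ => ?_
    rw [mul_assoc (a * b) c e]
  rw [sum_congr rfl (fun a ha => sum_congr rfl (fun b hb => e1 a ha b hb))]
  -- move n outside
  have e2 : ∑ a ∈ SB X, ∑ b ∈ SB X, ∑ n ∈ SB X, Φ X (a * b * n) * ∑ C ∈ (PD n).powerset,
        G0 a b (∏ π ∈ C, π) (∏ π ∈ PD n \ C, π) =
      ∑ n ∈ SB X, ∑ a ∈ SB X, ∑ b ∈ SB X, Φ X (a * b * n) * ∑ C ∈ (PD n).powerset,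
        G0 a b (∏ π ∈ C, π) (∏ π ∈ PD n \ C, π) := by
    rw [sum_congr rfl (fun a _ => sum_comm), sum_comm]
  rw [e2]
  have e3 : ∀ n ∈ SB X, ∑ a ∈ SB X, ∑ b ∈ SB X, Φ X (a * b * n) * (∑ C ∈ (PD n).powerset,
        G0 a b (∏ π ∈ C, π) (∏ π ∈ PD n \ C, π)) =
      ∑ d ∈ SB X, Φ X (d * n) * ∑ A ∈ (PD d).powerset, ∑ C ∈ (PD n).powerset,
        G0 (∏ π ∈ A, π) (∏ π ∈ PD d \ A, π) (∏ π ∈ C, π) (∏ π ∈ PD n \ C, π) := by
    intro n hn
    rw [mem_SB] at hn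
    exact pr_sum (X := X) (Φ := fun d => Φ X (d * n)) (hΦ.r hn.2.prm)
      (fun a b => ∑ C ∈ (PD n).powerset, G0 a b (∏ π ∈ C, π) (∏ π ∈ PD n \ C, π))
  rw [sum_congr rfl e3, sum_comm]
  have h1 := pr_sum (X := X) (Φ := fun m => Φ X m) (hΦ.ne X)
      (fun d n => ∑ A ∈ (PD d).powerset, ∑ C ∈ (PD n).powerset,
        G0 (∏ π ∈ A, π) (∏ π ∈ PD d \ A, π) (∏ π ∈ C, π) (∏ π ∈ PD n \ C, π))
  rw [h1]
  refine sum_congr rfl fun m hm => ?_
  congr 1
  have hm' := (mem_SB.1 hm).2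
  unfold K0
  rw [← sum_boole]
  refine sum_congr rfl fun S hS => ?_
  rw [mem_powerset] at hS
  have hSP : ∀ π ∈ S, PP π := fun π hπ => ((mem_PD hm'.ne).1 (hS hπ)).1
  have hSP' : ∀ π ∈ PD m \ S, PP π := fun π hπ => ((mem_PD hm'.ne).1 (mem_sdiff.1 hπ).1).1
  rw [(PS_prod hSP).2, (PS_prod hSP').2]
  exact (G0_sum hm' hS).symm

end Pool.Agent.U695.XM
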