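import Pool.Agent.U695.XM.Fm

/-!
# The regimes
-/

set_option autoImplicit false
set_option linter.unusedVariables false

open Finset

namespace Pool.Agent.U695.XM

open H385 (ZI RQ im1 nrm BX)
open H385.H10 (mem_BX nrm_pos Dv mem_Dv card_Dv)
open Pool.Agent.W164.RC (two2 prim_iff_dvd unit_norm unit_cases)
open Pool.Agent.H304R2.EC.A1 (prim prim_mul prim_cancel prim_one prim_norm_odd prim_star eq_one_of_prim
  norm_def' re_mul' im_mul' eq_of_dvd prim_ne_zero exists_prim)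
open Pool.Agent.Y699

variable {Φ : ℕ → ZI → ℝ}

/-- a sum over four variables -/
noncomputable def S4 (s : Finset ZI) (F : ZI → ZI → ZI → ZI → ℝ) : ℝ :=
  ∑ a ∈ s, ∑ b ∈ s, ∑ c ∈ s, ∑ e ∈ s, F a b c e

lemma S4_12 (s : Finset ZI) (F : ZI → ZI → ZI → ZI → ℝ) :
    S4 s F = S4 s (fun a b c e => F b a c e) := by
  unfold S4
  exact sum_comm

lemma S4_23 (s : Finset ZI) (F : ZI → ZI → ZI → ZI → ℝ) :
    S4 s F = S4 s (fun a b c e => F a c b e) := by
  unfold S4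
  exact sum_congr rfl fun _ _ => sum_comm

lemma S4_34 (s : Finset ZI) (F : ZI → ZI → ZI → ZI → ℝ) :
    S4 s F = S4 s (fun a b c e => F a b e c) := by
  unfold S4
  exact sum_congr rfl fun _ _ => sum_congr rfl fun _ _ => sum_comm

lemma S4_14 (s : Finset ZI) (F : ZI → ZI → ZI → ZI → ℝ) :
    S4 s F = S4 s (fun a b c e => F e b c a) :=
  (S4_12 s F).trans ((S4_23 s _).trans ((S4_34 s _).trans ((S4_23 s _).trans (S4_12 s _))))

lemma S4_congr {s : Finset ZI} {F G : ZI → ZI → ZI → ZI → ℝ}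
    (h : ∀ a ∈ s, ∀ b ∈ s, ∀ c ∈ s, ∀ e ∈ s, F a b c e = G a b c e) :
    S4 s F = S4 s G := by
  unfold S4
  exact sum_congr rfl fun a ha => sum_congr rfl fun b hb => sum_congr rfl fun c hc =>
    sum_congr rfl fun e he => h a ha b hb c hc e he

lemma S4_add (s : Finset ZI) (F G : ZI → ZI → ZI → ZI → ℝ) :
    S4 s (fun a b c e => F a b c e + G a b c e) = S4 s F + S4 s G := by
  unfold S4
  simp only [sum_add_distrib]

lemma S4_neg (s : Finset ZI) (F : ZI → ZI → ZI → ZI → ℝ) :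
    S4 s (fun a b c e => - F a b c e) = - S4 s F := by
  unfold S4
  simp only [sum_neg_distrib]

/-- bounding with two outer variables -/
lemma S4_bound {s : Finset ZI} {F : ZI → ZI → ZI → ZI → ℝ} {K : ℝ} {g1 g2 : ZI → ℝ}
    (h : ∀ a ∈ s, ∀ b ∈ s, |∑ c ∈ s, ∑ e ∈ s, F a b c e| ≤ K * (g1 a * g2 b)) :
    |S4 s F| ≤ K * ((∑ x ∈ s, g1 x) * (∑ x ∈ s, g2 x)) := by
  unfold S4
  have e : K * ((∑ x ∈ s, g1 x) * (∑ x ∈ s, g2 x)) = ∑ a ∈ s, ∑ b ∈ s, K * (g1 a * g2 b) := by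
    rw [sum_mul, mul_sum]
    refine sum_congr rfl fun x1 _ => ?_
    rw [mul_sum, mul_sum]
  rw [e]
  refine (abs_sum_le_sum_abs _ _).trans (sum_le_sum fun a ha => ?_)
  exact (abs_sum_le_sum_abs _ _).trans (sum_le_sum fun b hb => h a ha b hb)

/-- bounding with three outer variables -/
lemma S4_bound3 {s : Finset ZI} {F : ZI → ZI → ZI → ZI → ℝ} {K : ℝ} {g1 g2 g3 : ZI → ℝ}
    (h : ∀ a ∈ s, ∀ b ∈ s, ∀ c ∈ s, |∑ e ∈ s, F a b c e| ≤ K * (g1 a * (g2 b * g3 c))) :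
    |S4 s F| ≤ K * ((∑ x ∈ s, g1 x) * ((∑ x ∈ s, g2 x) * (∑ x ∈ s, g3 x))) := by
  unfold S4
  have e : K * ((∑ x ∈ s, g1 x) * ((∑ x ∈ s, g2 x) * (∑ x ∈ s, g3 x))) =
      ∑ a ∈ s, ∑ b ∈ s, ∑ c ∈ s, K * (g1 a * (g2 b * g3 c)) := by
    rw [sum_mul, mul_sum]
    refine sum_congr rfl fun x1 _ => ?_
    rw [sum_mul, mul_sum, mul_sum]
    refine sum_congr rfl fun x2 _ => ?_
    rw [mul_sum, mul_sum, mul_sum]
  rw [e]
  refine (abs_sum_le_sum_abs _ _).trans (sum_le_sum fun a ha => ?_)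
  refine (abs_sum_le_sum_abs _ _).trans (sum_le_sum fun b hb => ?_)
  exact (abs_sum_le_sum_abs _ _).trans (sum_le_sum fun c hc => h a ha b hb c hc)

/-- the summand -/
noncomputable def F4 (Φ : ℕ → ZI → ℝ) (X : ℕ) (κ : ZI → ZI → ZI → ZI → ℝ) (a b c e : ZI) : ℝ :=
  κ a b c e * (Φ X (a * b * c * e) * G0 a b c e)

/-- the exchange of `b` and `c` -/
lemma F4_23 (X : ℕ) (κ : ZI → ZI → ZI → ZI → ℝ) :
    S4 (SB X) (F4 Φ X κ) = S4 (SB X) (F4 Φ X (fun a b c e => κ a c b e)) := by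
  rw [S4_23]
  refine S4_congr fun a ha b hb c hc e he => ?_
  rw [mem_SB] at hb hc
  unfold F4 G0
  rw [show a * c * b * e = a * b * c * e by ring, jac_rec hc.2 hb.2]
  ring

/-- the exchange of `a` and `e` -/
lemma F4_14 (X : ℕ) (κ : ZI → ZI → ZI → ZI → ℝ) :
    S4 (SB X) (F4 Φ X κ) = S4 (SB X) (F4 Φ X (fun a b c e => κ e b c a)) := by
  rw [S4_14]
  refine S4_congr fun a ha b hb c hc e he => ?_
  rw [mem_SB] at ha he
  unfold F4 G0
  rw [show e * b * c * a = a * b * c * e by ring, jac_rec he.2 ha.2]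
  ring

/-- the exchange of the two pairs -/
lemma F4_sw (X : ℕ) (κ : ZI → ZI → ZI → ZI → ℝ) :
    S4 (SB X) (F4 Φ X κ) = S4 (SB X) (F4 Φ X (fun a b c e => κ b a e c)) := by
  rw [S4_12, S4_34]
  refine S4_congr fun a ha b hb c hc e he => ?_
  unfold F4 G0
  rw [show b * a * e * c = a * b * c * e by ring]
  ring

lemma two_bound {X : ℕ} {K : ℝ} (hK : 0 ≤ K) :
    K * ((∑ x ∈ SB X, (1 : ℝ) / nrm x) * (∑ x ∈ SB X, (1 : ℝ) / nrm x)) ≤ K * (18 * lg X) ^ 2 := by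
  have h := hsum_SB X
  have h0 : 0 ≤ ∑ x ∈ SB X, (1 : ℝ) / nrm x := sum_nonneg fun _ _ => by positivity
  apply mul_le_mul_of_nonneg_left _ hK
  calc (∑ x ∈ SB X, (1 : ℝ) / nrm x) * (∑ x ∈ SB X, (1 : ℝ) / nrm x) =
      (∑ x ∈ SB X, (1 : ℝ) / nrm x) ^ 2 := by ring
    _ ≤ _ := pow_le_pow_left₀ h0 h 2

/-- two large linked variables -/
theorem regA (hΦ : Cl Φ) : ∃ C : ℝ, 1 ≤ C ∧ ∀ (X Z : ℕ), 1 ≤ Z → ∀ κ : ZI → ZI → ℝ,
    (∀ a e, |κ a e| ≤ 1) →
    |S4 (SB X) (F4 Φ X (fun a b c e => hi Z b * hi Z c * κ a e))| ≤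
      C * (X * lg X ^ 3) * (Z : ℝ) ^ (-(1 / 96) : ℝ) := by
  obtain ⟨C, hC1, hC⟩ := hΦ.bl
  refine ⟨18 ^ 2 * C, by linarith, ?_⟩
  intro X Z hZ κ hκ
  have hlg := lg_pos X
  have hre : S4 (SB X) (F4 Φ X (fun a b c e => hi Z b * hi Z c * κ a e)) =
      S4 (SB X) (fun a e b c => F4 Φ X (fun a b c e => hi Z b * hi Z c * κ a e) a b c e) := by
    rw [S4_34 (SB X) (F4 Φ X _), S4_23]
  rw [hre]
  have h := S4_bound (s := SB X) (F := fun a e b c =>
      F4 Φ X (fun a b c e => hi Z b * hi Z c * κ a e) a b c e)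
    (K := C * (X * lg X) * (Z : ℝ) ^ (-(1 / 96) : ℝ))
    (g1 := fun x => 1 / nrm x) (g2 := fun x => 1 / nrm x) ?_
  · refine h.trans ((two_bound (by positivity)).trans (le_of_eq (by ring)))
  · intro a ha e he
    rw [mem_SB] at ha he
    have hr : prim (a * e) := prim_mul ha.2.prm he.2.prm
    have h1 := hC (fun b => hi Z b * wt2 b) (fun c => hi Z c * wt2 c)
      (fun b => abs_mul_le (hi_abs _ _) (wt2_abs _)) (fun c => abs_mul_le (hi_abs _ _) (wt2_abs _))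
      Z X hZ (fun x hx => by rw [hi_zero hx, zero_mul]) (fun x hx => by rw [hi_zero hx, zero_mul])
      (a * e) hr
    have e1 : ∑ b ∈ SB X, ∑ c ∈ SB X,
        F4 Φ X (fun a b c e => hi Z b * hi Z c * κ a e) a b c e =
        (κ a e * (wt2 a * wt2 e * jac a e)) * ∑ b ∈ SB X, ∑ c ∈ SB X, Φ X (b * c * (a * e)) *
          ((hi Z b * wt2 b) * (hi Z c * wt2 c) * jac b c) := by
      rw [mul_sum]
      refine sum_congr rfl fun b _ => ?_
      rw [mul_sum]
      refine sum_congr rfl fun c _ => ?_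
      unfold F4 G0
      rw [show a * b * c * e = b * c * (a * e) by ring]
      ring
    rw [e1, abs_mul]
    have h2 : |κ a e * (wt2 a * wt2 e * (jac a e : ℝ))| ≤ 1 :=
      abs_mul_le (hκ _ _) (abs_mul_le (abs_mul_le (wt2_abs _) (wt2_abs _)) (jac_abs _ _))
    refine (mul_le_of_le_one_left (abs_nonneg _) h2).trans (h1.trans (le_of_eq ?_))
    rw [nrm_mul]
    push_cast
    rw [one_div_mul_one_div]
    ring

/-- the condition on the size of the parameters -/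
def HL4 (X Z : ℕ) (lam : ℝ) : Prop :=
  ∀ r : ZI, prim r → nrm r ≤ Z ^ 3 → lg X ≤ lam * lg (X / nrm r)

lemma TB4 {X Z : ℕ} {lam : ℝ} (hlam : 0 ≤ lam) (h : HL4 X Z lam) {r : ZI} (hr : prim r)
    (hn : nrm r ≤ Z ^ 3) :
    ((X / nrm r : ℕ) : ℝ) / Real.sqrt (lg (X / nrm r)) ≤
      (X / Real.sqrt (lg X) * Real.sqrt lam) * (1 / nrm r) := by
  have h1 := h r hr hn
  set T := X / nrm r with hT
  have hlT := lg_pos T
  have hlX := lg_pos X
  have s1 : 0 < Real.sqrt (lg T) := Real.sqrt_pos.2 hlT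
  have s2 : 0 < Real.sqrt (lg X) := Real.sqrt_pos.2 hlX
  have h2 : Real.sqrt (lg X) ≤ Real.sqrt lam * Real.sqrt (lg T) := by
    rw [← Real.sqrt_mul hlam]
    exact Real.sqrt_le_sqrt h1
  have h3 : (T : ℝ) ≤ (X : ℝ) / nrm r := Nat.cast_div_le
  have hX0 : (0 : ℝ) ≤ X := Nat.cast_nonneg X
  have hn0 : (0 : ℝ) ≤ (X : ℝ) / nrm r := by positivity
  calc (T : ℝ) / Real.sqrt (lg T) ≤ ((X : ℝ) / nrm r) / Real.sqrt (lg T) :=
        div_le_div_of_nonneg_right h3 s1.le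
    _ ≤ ((X : ℝ) / nrm r) * (Real.sqrt lam / Real.sqrt (lg X)) := by
        rw [div_eq_mul_one_div]
        apply mul_le_mul_of_nonneg_left _ hn0
        rw [div_le_div_iff₀ s1 s2]
        linarith
    _ = (X / Real.sqrt (lg X) * Real.sqrt lam) * (1 / nrm r) := by ring

/-- the main estimate with two small variables -/
lemma two_small4 (hΦ : Cl Φ) {X Z : ℕ} {lam : ℝ} (hlam : 0 ≤ lam) (h : HL4 X Z lam) (hZ : 1 ≤ Z)
    {a b : ZI} (ha : PS a) (hb : PS b) (hab : a * b ≠ 1) {k : ℝ} (hk : |k| ≤ 1) :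
    |(lo Z a * lo Z b) * k * ∑ c ∈ SB X, ∑ e ∈ SB X,
        Φ X (c * e * (a * b)) * (wt2 c * wt2 e * jac a e * jac b c)| ≤
      (1680 * Real.sqrt (2 * lg Z) * (X / Real.sqrt (lg X) * Real.sqrt lam)) *
        (lo Z a * (1 / nrm a) * (lo Z b * (1 / nrm b))) := by
  classical
  have hlX := lg_pos X
  have hr : prim (a * b) := prim_mul ha.prm hb.prm
  have hnn : 0 ≤ (1680 * Real.sqrt (2 * lg Z) * (X / Real.sqrt (lg X) * Real.sqrt lam)) *
        (lo Z a * (1 / (nrm a : ℝ)) * (lo Z b * (1 / nrm b))) := by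
    apply mul_nonneg (by positivity)
    exact mul_nonneg (mul_nonneg (lo_nonneg Z a) (by positivity))
      (mul_nonneg (lo_nonneg Z b) (by positivity))
  by_cases c3 : nrm a ≤ Z
  swap
  · have : lo Z a = 0 := by unfold lo; rw [if_neg c3]
    rw [this]; simp
  by_cases c4 : nrm b ≤ Z
  swap
  · have : lo Z b = 0 := by unfold lo; rw [if_neg c4]
    rw [this]; simp
  have e3 : lo Z a = 1 := by unfold lo; rw [if_pos c3]
  have e4 : lo Z b = 1 := by unfold lo; rw [if_pos c4]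
  by_cases c6 : PS (a * b)
  swap
  · have hz : ∑ c ∈ SB X, ∑ e ∈ SB X, Φ X (c * e * (a * b)) *
        (wt2 c * wt2 e * (jac a e : ℝ) * jac b c) = 0 := by
      refine sum_eq_zero fun c hc => sum_eq_zero fun e he => ?_
      rw [mem_SB] at hc he
      have : Φ X (c * e * (a * b)) = 0 := by
        by_contra h0
        obtain ⟨h1, -⟩ := hΦ.ne _ _ h0
        exact c6 ((PS.mul_iff (prim_mul hc.2.prm he.2.prm) hr).1 h1).2.1
      rw [this, zero_mul]
    rw [hz]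
    simp only [mul_zero, abs_zero]
    exact hnn
  have h1 := hΦ.hsw c6 ha.prm hb.prm hab hr dvd_rfl X
  have hnab : nrm (a * b) ≤ Z ^ 2 := by
    rw [nrm_mul, sq]
    exact Nat.mul_le_mul c3 c4
  have hlg : lg (nrm (a * b)) ≤ 2 * lg Z := (lg_mono hnab).trans (lg_sq Z)
  have hsq : Real.sqrt (lg (nrm (a * b))) ≤ Real.sqrt (2 * lg Z) := Real.sqrt_le_sqrt hlg
  have hnr : nrm (a * b) ≤ Z ^ 3 := hnab.trans (Nat.pow_le_pow_right hZ (by norm_num))
  have hTB := TB4 hlam h hr hnr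
  have h0 : (0 : ℝ) ≤ ((X / nrm (a * b) : ℕ) : ℝ) / Real.sqrt (lg (X / nrm (a * b))) := by
    positivity
  rw [e3, e4, abs_mul, abs_mul]
  rw [show |(1 : ℝ) * 1| = 1 by norm_num]
  simp only [one_mul]
  refine (mul_le_of_le_one_left (abs_nonneg _) hk).trans (h1.trans ?_)
  calc 1680 * Real.sqrt (lg (nrm (a * b))) * (((X / nrm (a * b) : ℕ) : ℝ) /
        Real.sqrt (lg (X / nrm (a * b))))
      ≤ 1680 * Real.sqrt (2 * lg Z) * ((X / Real.sqrt (lg X) * Real.sqrt lam) * (1 / nrm (a * b))) := by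
        apply mul_le_mul _ hTB h0 (by positivity)
        linarith
    _ = _ := by
        rw [nrm_mul]
        push_cast
        rw [one_div, mul_inv]
        ring

/-- the error term of the last regimes -/
noncomputable def E4 (X Z : ℕ) (lam : ℝ) : ℝ :=
  (1680 * 2 * (18 : ℝ) ^ 3) * Real.sqrt lam * (X * lg Z ^ 3 / Real.sqrt (lg X))

lemma E4_bound (X Z : ℕ) (lam : ℝ) :
    (1680 * Real.sqrt (2 * lg Z) * (X / Real.sqrt (lg X) * Real.sqrt lam)) *
      ((18 * lg Z) * (18 * lg Z)) ≤ E4 X Z lam := by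
  unfold E4
  have h1 := sqrt_two_lg Z
  have h2 := lg_pos Z
  have h4 : 0 ≤ Real.sqrt lam := Real.sqrt_nonneg _
  have h5 : 0 ≤ (X : ℝ) / Real.sqrt (lg X) := by positivity
  calc (1680 * Real.sqrt (2 * lg Z) * (X / Real.sqrt (lg X) * Real.sqrt lam)) *
      ((18 * lg Z) * (18 * lg Z))
      ≤ (1680 * (2 * lg Z) * (X / Real.sqrt (lg X) * Real.sqrt lam)) *
      ((18 * lg Z) * (18 * lg Z)) := by gcongr
    _ = (1680 * 2 * (18 : ℝ) ^ 2) * (Real.sqrt lam * (X * lg Z ^ 3 / Real.sqrt (lg X))) := by ring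
    _ ≤ (1680 * 2 * (18 : ℝ) ^ 3) * (Real.sqrt lam * (X * lg Z ^ 3 / Real.sqrt (lg X))) := by
        have h6 : 0 ≤ (X : ℝ) * lg Z ^ 3 / Real.sqrt (lg X) := by positivity
        have h7 : 0 ≤ Real.sqrt lam * ((X : ℝ) * lg Z ^ 3 / Real.sqrt (lg X)) := by positivity
        apply mul_le_mul_of_nonneg_right _ h7
        norm_num
    _ = _ := by ring

/-- the main term -/
theorem regC (hΦ : Cl Φ) {X Z : ℕ} {lam : ℝ} (hlam : 0 ≤ lam) (h : HL4 X Z lam) (hZ : 1 ≤ Z)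
    (hX : 1 ≤ X) :
    |S4 (SB X) (F4 Φ X (fun a b c e => lo Z a * lo Z b)) - ∑ n ∈ SB X, Φ X n| ≤ E4 X Z lam := by
  classical
  have hlX := lg_pos X
  set G : ZI → ZI → ℝ := fun a b => ∑ c ∈ SB X, ∑ e ∈ SB X,
    Φ X (c * e * (a * b)) * (wt2 c * wt2 e * jac a e * jac b c) with hG
  have h1X : (1 : ZI) ∈ SB X := by
    rw [mem_SB]
    refine ⟨?_, PS_one⟩
    have : nrm (1 : ZI) = 1 := by decide
    omega
  have hj1 : ∀ x : ZI, (jac 1 x : ℝ) = 1 := by
    intro x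
    have hp1 : PD (1 : ZI) = ∅ := by
      rw [Finset.eq_empty_iff_forall_notMem]
      intro π hπ
      have h3 := (mem_PD one_ne_zero).1 hπ
      exact h3.1.pr.not_isUnit (isUnit_of_dvd_one h3.2)
    unfold jac
    rw [hp1, prod_empty, Int.cast_one]
  have hw1 : wt2 (1 : ZI) = 1 := by
    have hp1 : PD (1 : ZI) = ∅ := by
      rw [Finset.eq_empty_iff_forall_notMem]
      intro π hπ
      have h3 := (mem_PD one_ne_zero).1 hπ
      exact h3.1.pr.not_isUnit (isUnit_of_dvd_one h3.2)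
    unfold wt2 mf
    rw [hp1, prod_empty]
  have hG1 : G 1 1 = ∑ n ∈ SB X, Φ X n := by
    have h1 := pr_sum (X := X) (Φ := fun n => Φ X n) (hΦ.ne X) (fun c e => wt2 c * wt2 e)
    have h2 : G 1 1 = ∑ c ∈ SB X, ∑ e ∈ SB X, Φ X (c * e) * (wt2 c * wt2 e) := by
      rw [hG]
      simp only
      refine sum_congr rfl fun c _ => sum_congr rfl fun e _ => ?_
      rw [hj1, hj1, mul_one, mul_one, mul_one, mul_one]
    rw [h2, h1]
    refine sum_congr rfl fun n hn => ?_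
    rw [mem_SB] at hn
    have h3 : ∑ S ∈ (PD n).powerset, wt2 (∏ π ∈ S, π) * wt2 (∏ π ∈ PD n \ S, π) = 1 := by
      have h4 : ∏ π ∈ PD n, ((1 / 2 : ℝ) + 1 / 2) = 1 := by
        rw [prod_eq_one]
        intro _ _
        norm_num
      rw [← h4, prod_add]
      refine sum_congr rfl fun S hS => ?_
      have hSP : ∀ π ∈ S, PP π := fun π hπ => ((mem_PD hn.2.ne).1 (mem_powerset.1 hS hπ)).1
      have hSP' : ∀ π ∈ PD n \ S, PP π := fun π hπ => ((mem_PD hn.2.ne).1 (mem_sdiff.1 hπ).1).1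
      unfold wt2
      rw [mf_prod hSP, mf_prod hSP']
    rw [h3, mul_one]
  -- the difference
  have e0 : S4 (SB X) (F4 Φ X (fun a b c e => lo Z a * lo Z b)) =
      ∑ a ∈ SB X, ∑ b ∈ SB X, (lo Z a * lo Z b) * (wt2 a * wt2 b) * G a b := by
    unfold S4
    refine sum_congr rfl fun a _ => sum_congr rfl fun b _ => ?_
    rw [hG]
    simp only
    rw [mul_sum]
    refine sum_congr rfl fun c _ => ?_
    rw [mul_sum]
    refine sum_congr rfl fun e _ => ?_
    unfold F4 G0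
    rw [show a * b * c * e = c * e * (a * b) by ring]
    ring
  have e1 : ∑ n ∈ SB X, Φ X n =
      ∑ a ∈ SB X, ∑ b ∈ SB X, (if a = 1 ∧ b = 1 then G a b else 0) := by
    rw [← hG1, sum_eq_single 1, sum_eq_single 1]
    · rw [if_pos ⟨rfl, rfl⟩]
    · intro b _ hb
      rw [if_neg (fun h => hb h.2)]
    · intro h
      exact absurd h1X h
    · intro a _ ha
      exact sum_eq_zero fun b _ => by rw [if_neg (fun h => ha h.1)]
    · intro h
      exact absurd h1X h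
  rw [e0, e1, ← sum_sub_distrib]
  have hb : ∀ a ∈ SB X, ∀ b ∈ SB X, |(lo Z a * lo Z b) * (wt2 a * wt2 b) * G a b -
      (if a = 1 ∧ b = 1 then G a b else 0)| ≤
      (1680 * Real.sqrt (2 * lg Z) * (X / Real.sqrt (lg X) * Real.sqrt lam)) *
        (lo Z a * (1 / nrm a) * (lo Z b * (1 / nrm b))) := by
    intro a ha b hb
    rw [mem_SB] at ha hb
    by_cases hab : a = 1 ∧ b = 1
    · rw [if_pos hab, hab.1, hab.2, hw1]
      have hl1 : lo Z (1 : ZI) = 1 := by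
        unfold lo
        rw [if_pos]
        have : nrm (1 : ZI) = 1 := by decide
        omega
      rw [hl1, mul_one, mul_one, one_mul, one_mul, sub_self, abs_zero]
      positivity
    · rw [if_neg hab, sub_zero]
      refine two_small4 hΦ hlam h hZ ha.2 hb.2 ?_ (abs_mul_le (wt2_abs _) (wt2_abs _))
      intro h1
      apply hab
      have ha1 : a = 1 := eq_one_of_prim ha.2.prm
        ((Zsqrtd.norm_eq_one_iff' (by norm_num) a).2 (IsUnit.of_mul_eq_one _ h1))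
      refine ⟨ha1, ?_⟩
      rw [ha1, one_mul] at h1
      exact h1
  have h2 : |∑ a ∈ SB X, (∑ b ∈ SB X, (lo Z a * lo Z b) * (wt2 a * wt2 b) * G a b -
      ∑ b ∈ SB X, (if a = 1 ∧ b = 1 then G a b else 0))| ≤
      ∑ a ∈ SB X, ∑ b ∈ SB X, (1680 * Real.sqrt (2 * lg Z) * (X / Real.sqrt (lg X) * Real.sqrt lam)) *
        (lo Z a * (1 / nrm a) * (lo Z b * (1 / nrm b))) := by
    refine (abs_sum_le_sum_abs _ _).trans (sum_le_sum fun a ha => ?_)
    rw [← sum_sub_distrib]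
    exact (abs_sum_le_sum_abs _ _).trans (sum_le_sum fun b hb' => hb a ha b hb')
  refine h2.trans ?_
  have e3 : ∑ a ∈ SB X, ∑ b ∈ SB X, (1680 * Real.sqrt (2 * lg Z) * (X / Real.sqrt (lg X) * Real.sqrt lam)) *
        (lo Z a * (1 / nrm a) * (lo Z b * (1 / nrm b))) =
      (1680 * Real.sqrt (2 * lg Z) * (X / Real.sqrt (lg X) * Real.sqrt lam)) *
      ((∑ x ∈ SB X, lo Z x * (1 / nrm x)) * ∑ x ∈ SB X, lo Z x * (1 / nrm x)) := by
    rw [sum_mul, mul_sum]
    refine sum_congr rfl fun a _ => ?_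
    rw [mul_sum, mul_sum]
  rw [e3]
  refine le_trans ?_ (E4_bound X Z lam)
  apply mul_le_mul_of_nonneg_left _ (by positivity)
  have h5 := sum_lo Z X
  have h6 := sum_lo_nonneg Z X
  exact mul_le_mul h5 h5 h6 (h6.trans h5)

/-- three small variables -/
theorem regB (hΦ : Cl Φ) {X Z : ℕ} {lam : ℝ} (hlam : 0 ≤ lam) (h : HL4 X Z lam)
    {κ : ZI → ZI → ZI → ZI → ℝ} (hκ : ∀ a b c e, |κ a b c e| ≤ 1) :
    |S4 (SB X) (F4 Φ X (fun a b c e => lo Z a * lo Z b * lo Z c * κ a b c e))| ≤ E4 X Z lam := by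
  classical
  have hlX := lg_pos X
  have hlZ := lg_pos Z
  have hb := S4_bound3 (s := SB X) (F := F4 Φ X (fun a b c e => lo Z a * lo Z b * lo Z c * κ a b c e))
    (K := 126 * (X / Real.sqrt (lg X) * Real.sqrt lam))
    (g1 := fun x => lo Z x * (1 / nrm x)) (g2 := fun x => lo Z x * (1 / nrm x))
    (g3 := fun x => lo Z x * (1 / nrm x)) ?_
  · refine hb.trans ?_
    have h5 := sum_lo Z X
    have h6 := sum_lo_nonneg Z X
    have h7 : (∑ x ∈ SB X, lo Z x * (1 / (nrm x : ℝ))) * ((∑ x ∈ SB X, lo Z x * (1 / (nrm x : ℝ))) *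
        ∑ x ∈ SB X, lo Z x * (1 / (nrm x : ℝ))) ≤ (18 * lg Z) * ((18 * lg Z) * (18 * lg Z)) :=
      mul_le_mul h5 (mul_le_mul h5 h5 h6 (h6.trans h5)) (mul_nonneg h6 h6) (h6.trans h5)
    refine (mul_le_mul_of_nonneg_left h7 (by positivity)).trans ?_
    unfold E4
    have h8 : 0 ≤ Real.sqrt lam * ((X : ℝ) * lg Z ^ 3 / Real.sqrt (lg X)) := by positivity
    calc 126 * (X / Real.sqrt (lg X) * Real.sqrt lam) * ((18 * lg Z) * ((18 * lg Z) * (18 * lg Z)))
        = (126 * 18 ^ 3) * (Real.sqrt lam * (X * lg Z ^ 3 / Real.sqrt (lg X))) := by ring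
      _ ≤ (1680 * 2 * (18 : ℝ) ^ 3) * (Real.sqrt lam * (X * lg Z ^ 3 / Real.sqrt (lg X))) := by
          apply mul_le_mul_of_nonneg_right _ h8
          norm_num
      _ = _ := by ring
  · intro a ha b hb c hc
    rw [mem_SB] at ha hb hc
    have hr : prim (a * b * c) := prim_mul (prim_mul ha.2.prm hb.2.prm) hc.2.prm
    have hstep : |∑ e ∈ SB X, F4 Φ X (fun a b c e => lo Z a * lo Z b * lo Z c * κ a b c e) a b c e| ≤
        (lo Z a * lo Z b * lo Z c) * ∑ e ∈ SB X, Φ X (e * (a * b * c)) * wt2 e := by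
      rw [mul_sum]
      refine (abs_sum_le_sum_abs _ _).trans (sum_le_sum fun e _ => ?_)
      unfold F4 G0
      rw [show a * b * c * e = e * (a * b * c) by ring]
      have hA : 0 ≤ (lo Z a * lo Z b * lo Z c) * (Φ X (e * (a * b * c)) * wt2 e) :=
        mul_nonneg (mul_nonneg (mul_nonneg (lo_nonneg Z a) (lo_nonneg Z b)) (lo_nonneg Z c))
          (mul_nonneg (hΦ.nn X _) (wt2_nonneg e))
      have e1 : lo Z a * lo Z b * lo Z c * κ a b c e * (Φ X (e * (a * b * c)) *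
          (wt2 a * wt2 b * wt2 c * wt2 e * ((jac a e : ℝ) * jac b c))) =
          (lo Z a * lo Z b * lo Z c * (Φ X (e * (a * b * c)) * wt2 e)) *
          (κ a b c e * (wt2 a * wt2 b * wt2 c * ((jac a e : ℝ) * jac b c))) := by ring
      rw [e1, abs_mul, abs_of_nonneg hA]
      refine mul_le_of_le_one_right hA ?_
      exact abs_mul_le (hκ _ _ _ _) (abs_mul_le
        (abs_mul_le (abs_mul_le (wt2_abs _) (wt2_abs _)) (wt2_abs _)) (abs_mul_le (jac_abs _ _) (jac_abs _ _)))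
    refine hstep.trans ?_
    by_cases c3 : nrm a ≤ Z
    swap
    · have : lo Z a = 0 := by unfold lo; rw [if_neg c3]
      rw [this]; simp
    by_cases c4 : nrm b ≤ Z
    swap
    · have : lo Z b = 0 := by unfold lo; rw [if_neg c4]
      rw [this]; simp
    by_cases c5 : nrm c ≤ Z
    swap
    · have : lo Z c = 0 := by unfold lo; rw [if_neg c5]
      rw [this]; simp
    have e3 : lo Z a = 1 := by unfold lo; rw [if_pos c3]
    have e4 : lo Z b = 1 := by unfold lo; rw [if_pos c4]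
    have e5 : lo Z c = 1 := by unfold lo; rw [if_pos c5]
    have h1 := hΦ.hsw0 hr X
    have hnr : nrm (a * b * c) ≤ Z ^ 3 := by
      rw [nrm_mul, nrm_mul a b]
      have : Z ^ 3 = Z * Z * Z := by ring
      rw [this]
      exact Nat.mul_le_mul (Nat.mul_le_mul c3 c4) c5
    have hTB := TB4 hlam h hr hnr
    rw [e3, e4, e5]
    norm_num
    refine h1.trans ?_
    refine (mul_le_mul_of_nonneg_left hTB (by norm_num)).trans (le_of_eq ?_)
    rw [nrm_mul, nrm_mul]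
    push_cast
    rw [one_div, mul_inv, mul_inv]
    ring

end Pool.Agent.U695.XM
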